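import Pool.Agent.D0H35.Hen.Swap

/-!
# Uniqueness of equilibrium states fails for every complex Henon map with a sink or a source
-/

set_option autoImplicit false

open MeasureTheory Filter Topology

namespace Pool.Agent.Results.MP_eeb913_an.UniquenessFails

open Pool.Agent.Helper179.KS Pool.Agent.Helper179.Eq Pool.Agent.Y203.HN Pool.Agent.D0H35.Hen

/-- The elementary Henon map `(x, y) ↦ (p(x) - a y, x)`. -/
noncomputable def elementaryHenon (p : Polynomial ℂ) (a : ℂ) (z : ℂ × ℂ) : ℂ × ℂ :=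
  (p.eval z.1 - a * z.2, z.1)

/-- Complex Henon maps: compositions `f₁ ∘ ⋯ ∘ f_m` (`m ≥ 1`) of elementary Henon maps with
polynomials of degree at least `2` and non-zero parameters `a`. -/
inductive IsComplexHenon : (ℂ × ℂ → ℂ × ℂ) → Prop
  | elementary (p : Polynomial ℂ) (a : ℂ) (hp : 2 ≤ p.natDegree) (ha : a ≠ 0) :
      IsComplexHenon (elementaryHenon p a)
  | comp (p : Polynomial ℂ) (a : ℂ) (f : ℂ × ℂ → ℂ × ℂ) (hp : 2 ≤ p.natDegree) (ha : a ≠ 0)
      (hf : IsComplexHenon f) : IsComplexHenon (elementaryHenon p a ∘ f)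

lemma cj_elementary (P : Polynomial ℂ) (a : ℂ) :
    cj (elementaryHenon P a) = MP_636246_an.SinkSaddles.elementaryHenon P a := rfl

lemma henon_cj {f : ℂ × ℂ → ℂ × ℂ} (hf : IsComplexHenon f) :
    MP_636246_an.SinkSaddles.IsComplexHenon (cj f) := by
  induction hf with
  | elementary P a hP ha => exact MP_636246_an.SinkSaddles.IsComplexHenon.elementary P a hP ha
  | comp P a f hP ha hf ih =>
    have h : cj (elementaryHenon P a ∘ f) = MP_636246_an.SinkSaddles.elementaryHenon P a ∘ cj f := by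
      funext z
      rfl
    rw [h]
    exact MP_636246_an.SinkSaddles.IsComplexHenon.comp P a _ hP ha ih

/-- The standing data. -/
theorem exists_all {f : ℂ × ℂ → ℂ × ℂ} (hf : IsComplexHenon f) {m : ℕ} {p : ℂ × ℂ}
    (h : Att f m p ∨ Rep f m p) : ∃ (K U : Set (ℂ × ℂ)) (H : ℝ), CycleData f m p K U H ∧
      ∃ μ, IsInvariantProb f μ ∧ μ (orb f p) = 0 := by
  have hH := henon_cj hf
  obtain ⟨g, G⟩ := exists_good hH
  have h' : Att (cj f) m p.swap ∨ Rep (cj f) m p.swap := by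
    rcases h with h | h
    · exact Or.inl (att_swap h)
    · exact Or.inr (rep_swap h)
  obtain ⟨R, H, U, D, _⟩ := exists_data G h'
  refine ⟨_, _, H, CycleData.swap D, ?_⟩
  obtain ⟨ν, h1, h2⟩ := exists_off hH h'
  refine ⟨ν.map Prod.swap, ?_, ?_⟩
  · have := inv_map_swap h1
    rwa [cj_cj] at this
  · rw [swap_me.map_apply]
    have : Prod.swap ⁻¹' (orb f p) = orb (cj f) p.swap := by
      ext z
      rw [orb_cj]
      rfl
    rw [this, h2]

lemma holder_continuous {φ : ℂ × ℂ → ℝ} (h : IsHolder φ) : Continuous φ := by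
  obtain ⟨α, C, hα, _, hC⟩ := h
  rw [continuous_iff_continuousAt]
  intro w
  rw [ContinuousAt, tendsto_iff_dist_tendsto_zero]
  have h1 : Continuous fun z : ℂ × ℂ =>
      C * (Real.sqrt (‖z.1 - w.1‖ ^ 2 + ‖z.2 - w.2‖ ^ 2)) ^ α := by
    apply continuous_const.mul
    apply Continuous.rpow_const _ (fun _ => Or.inr hα.le)
    fun_prop
  have h2 := h1.tendsto w
  have h3 : C * (Real.sqrt (‖w.1 - w.1‖ ^ 2 + ‖w.2 - w.2‖ ^ 2)) ^ α = 0 := by
    simp [Real.zero_rpow hα.ne']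
  simp only [h3] at h2
  exact squeeze_zero (fun _ => dist_nonneg) (fun z => hC z w) h2

lemma cyc_orb_ne {f : ℂ × ℂ → ℂ × ℂ} {m : ℕ} {p : ℂ × ℂ} {K U : Set (ℂ × ℂ)} {H : ℝ}
    (D : CycleData f m p K U H) : cyc f m p (orb f p) ≠ 0 := by
  intro h
  have h6 := cyc_orb D
  rw [Measure.real, h] at h6
  simp at h6

/-- The phase transition statement for the map `f`, the cycle of `p` and the bump `b`. -/
def PhaseTransition (f : ℂ × ℂ → ℂ × ℂ) (m : ℕ) (p : ℂ × ℂ) (b ψ : ℂ × ℂ → ℝ) (τ : ℝ) : Prop :=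
  (∀ t, τ < t → ∀ ν, IsEquilibriumState f (fun z => ψ z + t * b z) ν ↔ ν = cyc f m p) ∧
  (∀ t, t < τ → ∀ ν, IsEquilibriumState f (fun z => ψ z + t * b z) ν ↔
    (ν (orb f p) = 0 ∧ IsEquilibriumState f (fun z => ψ z + τ * b z) ν)) ∧
  IsEquilibriumState f (fun z => ψ z + τ * b z) (cyc f m p) ∧
  ((∃ ν, ν ≠ cyc f m p ∧ IsEquilibriumState f (fun z => ψ z + τ * b z) ν) ∨
    ∀ t, t < τ → ∀ ν, ¬ IsEquilibriumState f (fun z => ψ z + t * b z) ν)

theorem phase {f : ℂ × ℂ → ℂ × ℂ} {m : ℕ} {p : ℂ × ℂ} {K U : Set (ℂ × ℂ)} {H : ℝ}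
    (D : CycleData f m p K U H) {b : ℂ × ℂ → ℝ} (B : Bump f p U b)
    (hne : ∃ μ, IsInvariantProb f μ ∧ μ (orb f p) = 0) {ψ : ℂ × ℂ → ℝ} (hψ : Continuous ψ) :
    ∃ τ, PhaseTransition f m p b ψ τ ∧ (∀ t, pressure f (fun z => ψ z + t * b z) =
        ((max (avg f m p ψ + τ) (avg f m p ψ + t) : ℝ) : EReal)) ∧
      (∀ μ, IsInvariantProb f μ → μ (orb f p) = 0 → fe f ψ μ ≤ avg f m p ψ + τ) := by
  obtain ⟨τ, hτ, h1, h2, h3, h4⟩ := transition D B hψ hne
  refine ⟨τ, ⟨h2, h3, h4, ?_⟩, h1, ?_⟩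
  · by_cases h : ∃ t, t < τ ∧ ∃ ν, IsEquilibriumState f (fun z => ψ z + t * b z) ν
    · obtain ⟨t, ht, ν, hν⟩ := h
      have h5 := (h3 t ht ν).1 hν
      refine Or.inl ⟨ν, ?_, h5.2⟩
      rintro rfl
      exact cyc_orb_ne D h5.1
    · right
      intro t ht ν hν
      exact h ⟨t, ht, ν, hν⟩
  · intro μ hμ hμ0
    have := le_csSup (offSet_bdd D hψ) (⟨μ, hμ, hμ0, rfl⟩ : fe f ψ μ ∈ offSet f p ψ)
    rw [hτ]
    linarith

lemma att_power (d : ℕ) (a : ℂ) (hd : 2 ≤ d) (ha1 : ‖a‖ ≠ 1) :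
    Att (elementaryHenon (Polynomial.X ^ d) a) 1 (0, 0) ∨
      Rep (elementaryHenon (Polynomial.X ^ d) a) 1 (0, 0) := by
  have h1 : (Polynomial.X ^ d : Polynomial ℂ).eval 0 = (1 + a) * 0 := by
    have h1 : d ≠ 0 := by omega
    rw [Polynomial.eval_pow, Polynomial.eval_X, zero_pow h1, mul_zero]
  have h2 : (Polynomial.derivative (Polynomial.X ^ d : Polynomial ℂ)).eval 0 = 0 := by
    have h1 : d - 1 ≠ 0 := by omega
    rw [Polynomial.derivative_X_pow, Polynomial.eval_mul, Polynomial.eval_pow,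
      Polynomial.eval_X, zero_pow h1, mul_zero]
  have e : cj (MP_636246_an.SinkSaddles.elementaryHenon (Polynomial.X ^ d) a) =
      elementaryHenon (Polynomial.X ^ d) a := by
    rw [← cj_elementary, cj_cj]
  rcases lt_or_gt_of_ne ha1 with h | h
  · left
    have h3 := att_elementary (Polynomial.X ^ d) a 0 h1 (by rw [h2, norm_zero, zero_add]; exact h)
    have h4 := att_swap h3
    rw [e] at h4
    exact h4
  · right
    have h3 := rep_elementary (Polynomial.X ^ d) a 0 h1 (by rw [h2, norm_zero, zero_add]; exact h)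
    have h4 := rep_swap h3
    rw [e] at h4
    exact h4

/-- **The answer to Q1 is negative.** More precisely, let `f` be any complex Henon map with an
attracting or repelling cycle, let `cyc f m p` be the uniform distribution on the cycle. There is a
Lipschitz bump `b` with compact support, `0 ≤ b ≤ 1`, `b = 1` on the cycle, such that for EVERY
Hölder weight `ψ` there is a first order phase transition on the line `ψ + t b`: for some `τ`,

* for `t > τ` the measure `cyc f m p` is the unique equilibrium state of `ψ + t b`;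
* for `t < τ` the equilibrium states of `ψ + t b` are the equilibrium states of `ψ + τ b` that do
  not charge the cycle;
* `cyc f m p` is an equilibrium state of `ψ + τ b`, and either `ψ + τ b` has a second equilibrium
  state or none of the weights `ψ + t b`, `t < τ`, has an equilibrium state.

For `ψ = 0` one has `τ = P(0)`, the supremum of the entropies, so that the weight `P(0) b` takes
values in `[0, P(0)]`; if the weight `0` has an equilibrium state (it is known to have one, the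
measure of maximal entropy), then `P(0) b` has at least two.

In particular uniqueness fails for each of the maps `(x, y) ↦ (x ^ d - a y, x)`, `d ≥ 2`,
`|a| ≠ 0, 1`. -/
theorem result :
    (¬ ∀ f : ℂ × ℂ → ℂ × ℂ, IsComplexHenon f → ∀ φ : ℂ × ℂ → ℝ, IsHolder φ →
      ∃! μ, IsEquilibriumState f φ μ) ∧
    (∀ (d : ℕ) (a : ℂ), 2 ≤ d → a ≠ 0 → ‖a‖ ≠ 1 → ∃ φ : ℂ × ℂ → ℝ, IsHolder φ ∧
      HasCompactSupport φ ∧ ¬ ∃! μ, IsEquilibriumState (elementaryHenon (Polynomial.X ^ d) a) φ μ) ∧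
    ∀ f : ℂ × ℂ → ℂ × ℂ, IsComplexHenon f → ∀ (m : ℕ) (p : ℂ × ℂ), (Att f m p ∨ Rep f m p) →
      (∃ φ : ℂ × ℂ → ℝ, IsHolder φ ∧ HasCompactSupport φ ∧ ¬ ∃! μ, IsEquilibriumState f φ μ) ∧
      ∃ b : ℂ × ℂ → ℝ, IsHolder b ∧ HasCompactSupport b ∧ (∀ z, 0 ≤ b z ∧ b z ≤ 1) ∧
        (∀ z ∈ orb f p, b z = 1) ∧
        (∀ ψ : ℂ × ℂ → ℝ, IsHolder ψ → ∃ τ : ℝ, PhaseTransition f m p b ψ τ) ∧
        ∃ τ : ℝ, 0 ≤ τ ∧ pressure f (fun _ => 0) = (τ : EReal) ∧
          IsEquilibriumState f (fun z => τ * b z) (cyc f m p) ∧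
          ((∃ μ, IsEquilibriumState f (fun _ => 0) μ) →
            ∃ ν, ν ≠ cyc f m p ∧ IsEquilibriumState f (fun z => τ * b z) ν) := by
  have main : ∀ f : ℂ × ℂ → ℂ × ℂ, IsComplexHenon f → ∀ (m : ℕ) (p : ℂ × ℂ),
      (Att f m p ∨ Rep f m p) →
      (∃ φ : ℂ × ℂ → ℝ, IsHolder φ ∧ HasCompactSupport φ ∧ ¬ ∃! μ, IsEquilibriumState f φ μ) ∧
      ∃ b : ℂ × ℂ → ℝ, IsHolder b ∧ HasCompactSupport b ∧ (∀ z, 0 ≤ b z ∧ b z ≤ 1) ∧
        (∀ z ∈ orb f p, b z = 1) ∧
        (∀ ψ : ℂ × ℂ → ℝ, IsHolder ψ → ∃ τ : ℝ, PhaseTransition f m p b ψ τ) ∧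
        ∃ τ : ℝ, 0 ≤ τ ∧ pressure f (fun _ => 0) = (τ : EReal) ∧
          IsEquilibriumState f (fun z => τ * b z) (cyc f m p) ∧
          ((∃ μ, IsEquilibriumState f (fun _ => 0) μ) →
            ∃ ν, ν ≠ cyc f m p ∧ IsEquilibriumState f (fun z => τ * b z) ν) := by
    intro f hf m p hap
    obtain ⟨K, U, H, D, hne⟩ := exists_all hf hap
    obtain ⟨ρ, hρ, hb0, hbc⟩ := D.exists_bump
    have B : Bump f p U (bump (orb f p) ρ) :=
      ⟨bump_continuous _ _, fun z hz => bump_mem hz, hb0⟩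
    set b := bump (orb f p) ρ with hb
    obtain ⟨τ, hPT, hpr, hoff⟩ := phase D B hne (ψ := fun _ => 0) continuous_const
    have havg : avg f m p (fun _ => (0 : ℝ)) = 0 := by simp [avg]
    have hτ0 : 0 ≤ τ := by
      obtain ⟨μ, hμ, hμ0⟩ := hne
      have h1 := hoff μ hμ hμ0
      rw [havg, zero_add] at h1
      refine le_trans ?_ h1
      obtain ⟨h, hh, _, h3⟩ := entropy_real D hμ
      unfold fe
      rw [h3, EReal.toReal_coe]
      simpa using hh
    have hfun : ∀ t : ℝ, (fun z => (0 : ℝ) + t * b z) = fun z => t * b z := by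
      intro t; funext z; ring
    have hz0 : (fun z : ℂ × ℂ => (0 : ℝ) + 0 * b z) = fun _ => 0 := by
      funext z; ring
    have hp0 : pressure f (fun _ => 0) = (τ : EReal) := by
      have h1 := hpr 0
      rw [hz0, havg, zero_add, zero_add, max_eq_left hτ0] at h1
      exact h1
    obtain ⟨hPT1, hPT2, hPT3, hPT4⟩ := hPT
    refine ⟨?_, b, ?_, hbc, fun z => ⟨bump_nonneg _ _ z, bump_le_one _ hρ z⟩,
      fun z hz => bump_mem hz, ?_, τ, hτ0, hp0, ?_, ?_⟩
    · -- some weight violates uniqueness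
      rcases hPT4 with ⟨ν, hν1, hν2⟩ | h
      · refine ⟨fun z => τ * b z, isHolder_bump _ hρ τ, hbc.mul_left, ?_⟩
        rintro ⟨μ, _, hμ⟩
        rw [hfun] at hν2 hPT3
        exact hν1 ((hμ _ hν2).trans (hμ _ hPT3).symm)
      · refine ⟨fun z => (τ - 1) * b z, isHolder_bump _ hρ (τ - 1), hbc.mul_left, ?_⟩
        rintro ⟨μ, hμ, _⟩
        have h2 := h (τ - 1) (by linarith) μ
        rw [hfun] at h2
        exact h2 hμ
    · have := isHolder_bump (orb f p) hρ 1
      simpa using this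
    · intro ψ hψ
      obtain ⟨τ', h1, _, _⟩ := phase D B hne (holder_continuous hψ)
      exact ⟨τ', h1⟩
    · rw [hfun] at hPT3
      exact hPT3
    · rintro ⟨μ, hμ⟩
      rcases hτ0.eq_or_lt with h0 | h0
      · -- all entropies vanish
        obtain ⟨ν, hν, hν0⟩ := hne
        refine ⟨ν, ?_, hν, ?_⟩
        · rintro rfl
          exact cyc_orb_ne D hν0
        · have h1 := hoff ν hν hν0
          rw [havg, zero_add, ← h0] at h1
          have hw : (fun z => τ * b z) = fun _ : ℂ × ℂ => (0 : ℝ) := by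
            funext z; rw [← h0]; ring
          rw [hw, hp0, ← h0, freeEnergy_eq D hν]
          obtain ⟨h, hh, _, h3⟩ := entropy_real D hν
          have h4 : 0 ≤ fe f (fun _ => 0) ν := by
            unfold fe
            rw [h3, EReal.toReal_coe]
            simpa using hh
          have h5 : fe f (fun _ => 0) ν = 0 := le_antisymm h1 h4
          rw [h5]
      · have h1 : IsEquilibriumState f (fun z => (0 : ℝ) + 0 * b z) μ := by
          rw [hz0]; exact hμ
        have h2 := (hPT2 0 h0 μ).1 h1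
        refine ⟨μ, ?_, ?_⟩
        · rintro rfl
          exact cyc_orb_ne D h2.1
        · rw [← hfun]
          exact h2.2
  have ex : ∀ (d : ℕ) (a : ℂ), 2 ≤ d → a ≠ 0 → ‖a‖ ≠ 1 → ∃ φ : ℂ × ℂ → ℝ, IsHolder φ ∧
      HasCompactSupport φ ∧
      ¬ ∃! μ, IsEquilibriumState (elementaryHenon (Polynomial.X ^ d) a) φ μ := by
    intro d a hd ha ha1
    have hd' : 2 ≤ (Polynomial.X ^ d : Polynomial ℂ).natDegree := by
      rw [Polynomial.natDegree_X_pow]; exact hd
    exact (main _ (IsComplexHenon.elementary _ a hd' ha) 1 (0, 0) (att_power d a hd ha1)).1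
  refine ⟨?_, ex, main⟩
  intro hall
  obtain ⟨φ, h1, _, h3⟩ := ex 2 (1 / 2) le_rfl (by norm_num) (by norm_num)
  refine h3 (hall _ ?_ φ h1)
  apply IsComplexHenon.elementary _ _ _ (by norm_num)
  rw [Polynomial.natDegree_X_pow]

end Pool.Agent.Results.MP_eeb913_an.UniquenessFails
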